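import Pool.Agent.W2helper3.BQ.Stm2

/-!
# Project BQ2 (MP_dd244f_an), piece LC2: the integrated bound for a general probability measure
-/

set_option autoImplicit false

open MeasureTheory Set Filter Topology
open scoped SchwartzMap ENNReal ContDiff BigOperators Interval

namespace Pool.Agent.W2helper3.BQ

namespace LC2H85

theorem lint_shift {f : ℝ → ℝ} (hf : Continuous f) (hfc : HasCompactSupport f)
    (h0 : ∀ u, 0 ≤ f u) (v : ℝ) :
    ∫⁻ u, ENNReal.ofReal (f (u + v)) = ENNReal.ofReal (∫ u, f u) := by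
  rw [lintegral_add_right_eq_self (fun u => ENNReal.ofReal (f u)) v,
    ofReal_integral_eq_lintegral_ofReal (hf.integrable_of_hasCompactSupport hfc)
      (Eventually.of_forall h0)]

theorem abs_bound {f : ℝ → ℝ} (hf : Continuous f) (h0 : ∀ u, 0 ≤ f u) (u v : ℝ) :
    ENNReal.ofReal |∫ t in (u + v)..u, f t| ≤
      ∫⁻ s in Ι v 0, ENNReal.ofReal (f (u + s)) := by
  have h1 : ∫ t in (u + v)..u, f t = ∫ s in v..0, f (u + s) := by
    rw [intervalIntegral.integral_comp_add_left, add_zero]
  have hc : Continuous fun s => f (u + s) := hf.comp (continuous_const_add u)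
  have hi : IntegrableOn (fun s => f (u + s)) (Ι v 0) :=
    (intervalIntegrable_iff.1 (hc.intervalIntegrable v 0))
  have h2 : |∫ s in v..0, f (u + s)| ≤ ∫ s in Ι v 0, f (u + s) := by
    have h3 := intervalIntegral.norm_integral_le_integral_norm_uIoc
      (f := fun s => f (u + s)) (a := v) (b := 0) (μ := volume)
    rw [Real.norm_eq_abs] at h3
    refine h3.trans (le_of_eq ?_)
    refine integral_congr_ae (Eventually.of_forall fun s => ?_)
    exact Real.norm_of_nonneg (h0 _)
  rw [h1]
  refine (ENNReal.ofReal_le_ofReal h2).trans (le_of_eq ?_)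
  rw [ofReal_integral_eq_lintegral_ofReal hi (Eventually.of_forall fun s => h0 _)]

theorem lint_abs {f : ℝ → ℝ} (hf : Continuous f) (hfc : HasCompactSupport f)
    (h0 : ∀ u, 0 ≤ f u) (v : ℝ) :
    ∫⁻ u, ENNReal.ofReal |∫ t in (u + v)..u, f t| ≤
      ENNReal.ofReal |v| * ENNReal.ofReal (∫ u, f u) := by
  refine (lintegral_mono fun u => abs_bound hf h0 u v).trans ?_
  have hm : Measurable fun q : ℝ × ℝ => ENNReal.ofReal (f (q.1 + q.2)) :=
    (hf.comp (continuous_fst.add continuous_snd)).measurable.ennreal_ofReal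
  rw [lintegral_lintegral_swap (μ := volume) (ν := volume.restrict (Ι v 0))
    (f := fun u s => ENNReal.ofReal (f (u + s))) hm.aemeasurable]
  simp_rw [lint_shift hf hfc h0]
  rw [lintegral_const, Measure.restrict_apply MeasurableSet.univ, univ_inter, mul_comm,
    Real.volume_uIoc, zero_sub, abs_neg]

end LC2H85

open LC2H85 in
theorem p_LC2 : P_LC2 := by
  intro hPT hJE C E p hC hE hp4 hCp μ hμ hMom A Db X hA hDb hX hAc hDbc hXc hA0 hDb0 hX0 h1 h2 h3
  have hp0 : 0 < p := by linarith
  set K : ℝ := 128 * C ^ 2 * Real.exp (16 * C) with hK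
  have hK0 : 0 < K := by positivity
  set W : ℝ → ℝ := fun u => W2 C p μ A u with hW
  set Ψ : ℝ → ℝ → ℝ := fun a X' => p ^ 2 / 2 * (C * a / p) ^ 2 * (X' + C * a / p) ^ (p - 2) with hΨ
  set Φ : ℝ → ℝ := fun u => p ^ 2 / 2 * (W u) ^ 2 * (X u + W u) ^ (p - 2) with hΦ
  -- pointwise bound
  have hpt : ∀ u v, Ψ (A (u + v)) (X u) ≤
      K / p * (Real.exp (|v| / 8) * (Db (u + v) + 4 * |∫ t in (u + v)..u, Db t|)) := by
    intro u v
    have h4 := hPT C p hC hp4 hCp (A (u + v)) (X (u + v)) (X u)
      (Real.exp (|v| / 8) * (4 / p * |∫ t in (u + v)..u, Db t|)) (Db (u + v))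
      (Real.exp (|v| / 8)) (hA0 _) (hX0 _) (hX0 _) (by positivity) (hDb0 _)
      (Real.one_le_exp (by positivity)) (h1 _) (h2 _) (by
        have h5 := h3 (u + v) (-v)
        rw [abs_neg, add_neg_cancel_right] at h5
        linarith)
    refine h4.trans (le_of_eq ?_)
    rw [← hK]
    field_simp
  have hΨ0 : ∀ a X', 0 ≤ a → 0 ≤ X' → 0 ≤ Ψ a X' := by
    intro a X' ha hX'
    rw [hΨ]
    positivity
  have hW0 : ∀ u, 0 ≤ W u := by
    intro u
    rw [hW]
    unfold W2
    exact mul_nonneg (by positivity) (integral_nonneg fun v => hA0 _)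
  have hΦ0 : ∀ u, 0 ≤ Φ u := by
    intro u
    have := hW0 u
    have := hX0 u
    rw [hΦ]
    positivity
  -- measurability
  have hWm : Measurable W := by
    have h4 : StronglyMeasurable (Function.uncurry fun u v : ℝ => A (u + v)) :=
      (hA.comp (continuous_fst.add continuous_snd)).stronglyMeasurable
    have h5 : StronglyMeasurable fun u => ∫ v, A (u + v) ∂μ := h4.integral_prod_right
    exact measurable_const.mul h5.measurable
  have hΦm : Measurable Φ :=
    (measurable_const.mul (hWm.pow_const 2)).mul ((hX.measurable.add hWm).pow_const (p - 2))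
  have hΨm : Measurable fun q : ℝ × ℝ => Ψ (A (q.1 + q.2)) (X q.1) := by
    have h4 : Continuous fun q : ℝ × ℝ => C * A (q.1 + q.2) / p :=
      (continuous_const.mul (hA.comp (continuous_fst.add continuous_snd))).div_const _
    have h5 : Continuous fun q : ℝ × ℝ => X q.1 := hX.comp continuous_fst
    exact (measurable_const.mul (h4.measurable.pow_const 2)).mul
      ((h5.measurable.add h4.measurable).pow_const (p - 2))
  -- Jensen
  have hJ : ∀ u, ENNReal.ofReal (Φ u) ≤ ∫⁻ v, ENNReal.ofReal (Ψ (A (u + v)) (X u)) ∂μ := by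
    intro u
    have h4 : Φ u ≤ ∫ v, Ψ (A (u + v)) (X u) ∂μ :=
      hJE C p hC hp4 μ hμ A (X u) hA hAc hA0 (hX0 u) u
    refine (ENNReal.ofReal_le_ofReal h4).trans ?_
    rw [integral_eq_lintegral_of_nonneg_ae (Eventually.of_forall fun v => hΨ0 _ _ (hA0 _) (hX0 _))
      (hΨm.comp measurable_prodMk_left).aestronglyMeasurable]
    exact ENNReal.ofReal_toReal_le
  set D : ℝ≥0∞ := ENNReal.ofReal (∫ u, Db u) with hD
  have hmain : ∫⁻ u, ENNReal.ofReal (Φ u) ≤
      ENNReal.ofReal (K / p) * (4 * (ENNReal.ofReal E * D)) := by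
    calc ∫⁻ u, ENNReal.ofReal (Φ u)
        ≤ ∫⁻ u, ∫⁻ v, ENNReal.ofReal (Ψ (A (u + v)) (X u)) ∂μ := lintegral_mono hJ
      _ = ∫⁻ v, (∫⁻ u, ENNReal.ofReal (Ψ (A (u + v)) (X u))) ∂μ :=
          lintegral_lintegral_swap (f := fun u v => ENNReal.ofReal (Ψ (A (u + v)) (X u)))
            hΨm.ennreal_ofReal.aemeasurable
      _ ≤ ∫⁻ v, ENNReal.ofReal (K / p) * (ENNReal.ofReal (Real.exp (|v| / 8)) *
            (D + 4 * (ENNReal.ofReal |v| * D))) ∂μ := by
          refine lintegral_mono fun v => ?_
          have hb : ∀ u, ENNReal.ofReal (Ψ (A (u + v)) (X u)) ≤ ENNReal.ofReal (K / p) *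
              (ENNReal.ofReal (Real.exp (|v| / 8)) * (ENNReal.ofReal (Db (u + v)) +
                4 * ENNReal.ofReal |∫ t in (u + v)..u, Db t|)) := by
            intro u
            refine (ENNReal.ofReal_le_ofReal (hpt u v)).trans (le_of_eq ?_)
            rw [ENNReal.ofReal_mul (by positivity), ENNReal.ofReal_mul (by positivity),
              ENNReal.ofReal_add (hDb0 _) (by positivity), ENNReal.ofReal_mul (by norm_num),
              ENNReal.ofReal_ofNat]
          refine (lintegral_mono hb).trans ?_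
          have hmm : Measurable fun u => ENNReal.ofReal (Db (u + v)) :=
            (hDb.comp (continuous_add_const v)).measurable.ennreal_ofReal
          rw [lintegral_const_mul' _ _ ENNReal.ofReal_ne_top,
            lintegral_const_mul' _ _ ENNReal.ofReal_ne_top, lintegral_add_left hmm,
            lintegral_const_mul' _ _ (by norm_num), lint_shift hDb hDbc hDb0]
          gcongr
          exact lint_abs hDb hDbc hDb0 v
      _ ≤ ∫⁻ v, ENNReal.ofReal (K / p) * (4 * (ENNReal.ofReal ((1 + |v|) *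
            Real.exp (|v| / 8)) * D)) ∂μ := by
          refine lintegral_mono fun v => ?_
          gcongr ENNReal.ofReal (K / p) * ?_
          rw [ENNReal.ofReal_mul (by positivity), ENNReal.ofReal_add (by norm_num) (abs_nonneg v),
            ENNReal.ofReal_one]
          have e1 : 4 * ((1 + ENNReal.ofReal |v|) * ENNReal.ofReal (Real.exp (|v| / 8)) * D) =
              ENNReal.ofReal (Real.exp (|v| / 8)) * (4 * D + 4 * (ENNReal.ofReal |v| * D)) := by
            ring
          rw [e1]
          gcongr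
          calc D = 1 * D := (one_mul D).symm
            _ ≤ 4 * D := by gcongr; norm_num
      _ = ENNReal.ofReal (K / p) * (4 * (Mom μ * D)) := by
          rw [lintegral_const_mul' _ _ ENNReal.ofReal_ne_top,
            lintegral_const_mul' _ _ (by norm_num), lintegral_mul_const' _ _ ENNReal.ofReal_ne_top]
          rfl
      _ ≤ ENNReal.ofReal (K / p) * (4 * (ENNReal.ofReal E * D)) := by
          gcongr
  have hDi : 0 ≤ ∫ u, Db u := integral_nonneg hDb0
  have hfin : ENNReal.ofReal (K / p) * (4 * (ENNReal.ofReal E * D)) =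
      ENNReal.ofReal (K / p * (4 * (E * ∫ u, Db u))) := by
    rw [ENNReal.ofReal_mul (by positivity), ENNReal.ofReal_mul (by norm_num),
      ENNReal.ofReal_mul (by linarith), ENNReal.ofReal_ofNat]
  rw [hfin] at hmain
  have hint : Integrable Φ := by
    refine ⟨hΦm.aestronglyMeasurable, ?_⟩
    rw [hasFiniteIntegral_iff_ofReal (Eventually.of_forall hΦ0)]
    exact hmain.trans_lt ENNReal.ofReal_lt_top
  refine ⟨hint, ?_⟩
  have h6 : ∫ u, Φ u ≤ K / p * (4 * (E * ∫ u, Db u)) := by
    rw [integral_eq_lintegral_of_nonneg_ae (Eventually.of_forall hΦ0) hΦm.aestronglyMeasurable]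
    exact ENNReal.toReal_le_of_le_ofReal (by positivity) hmain
  refine h6.trans ?_
  have e2 : K / p * (4 * (E * ∫ u, Db u)) =
      512 * E * C ^ 2 * Real.exp (16 * C) / p * ∫ u, Db u := by
    rw [hK]; ring
  rw [e2]
  gcongr
  norm_num

end Pool.Agent.W2helper3.BQ
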